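import Mathlib

/-!
# No two degree one primes above almost all primes

Let `L/K` be an extension of number fields.  It is impossible that above all primes of `K` outside
a finite set there are two different primes of `L` with the same norm.  The proof compares the
number of ideals of norm at most `x` in `K` and in `L`.
-/

set_option autoImplicit false

open NumberField Ideal Filter Topology UniqueFactorizationMonoid
open scoped nonZeroDivisors

namespace AbMot

section

variable (K : Type) [Field K] [NumberField K]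

/-- the ideals of a set with norm at most `x` -/
def spSet (A : Set (Ideal (𝓞 K))) (x : ℝ) : Set (Ideal (𝓞 K)) :=
  {I | I ∈ A ∧ (absNorm I : ℝ) ≤ x}

lemma spSet_finite (A : Set (Ideal (𝓞 K))) (x : ℝ) : (spSet K A x).Finite := by
  refine (Ideal.finite_setOfPred_absNorm_le (S := 𝓞 K) ⌊x⌋₊).subset ?_
  rintro I ⟨-, hI⟩
  exact Nat.le_floor hI

/-- the nonzero ideals not divisible by any element of `T` -/
def spAv (T : Finset (Ideal (𝓞 K))) : Set (Ideal (𝓞 K)) :=
  {I | I ≠ ⊥ ∧ ∀ P ∈ T, ¬ P ∣ I}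

lemma sp_lim_empty : ∃ c : ℝ, 0 < c ∧
    Tendsto (fun x : ℝ => ((spSet K (spAv K ∅) x).ncard : ℝ) / x) atTop (𝓝 c) := by
  refine ⟨_, ?_, (NumberField.Ideal.tendsto_norm_le_div_atTop₀ K).congr ?_⟩
  · have h1 := NumberField.Units.regulator_pos K
    have h2 : 0 < classNumber K := classNumber_pos K
    have h3 : 0 < NumberField.Units.torsionOrder K := NumberField.Units.torsionOrder_pos K
    have h4 : (discr K : ℝ) ≠ 0 := by exact_mod_cast discr_ne_zero K
    have h5 : 0 < |(discr K : ℝ)| := abs_pos.2 h4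
    positivity
  · intro x
    congr 2
    rw [← Nat.card_coe_set_eq]
    refine Nat.card_congr ⟨fun I => ⟨I.1.1, ⟨?_, ?_⟩, I.2⟩, fun I => ⟨⟨I.1, ?_⟩, I.2.2⟩,
      fun _ => rfl, fun _ => rfl⟩
    · exact nonZeroDivisors.coe_ne_zero I.1
    · intro P hP
      exact absurd hP (Finset.notMem_empty _)
    · exact mem_nonZeroDivisors_of_ne_zero I.2.1.1

lemma sp_rec {T : Finset (Ideal (𝓞 K))} {P : Ideal (𝓞 K)} (hP : Prime P) (hPT : P ∉ T)
    (hT : ∀ Q ∈ T, Prime Q) (x : ℝ) :
    (spSet K (spAv K T) x).ncard =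
      (spSet K (spAv K (insert P T)) x).ncard + (spSet K (spAv K T) (x / absNorm P)).ncard := by
  classical
  have hN : (0 : ℝ) < absNorm P := by
    exact_mod_cast Nat.pos_of_ne_zero (mt Ideal.absNorm_eq_zero_iff.1 hP.ne_zero)
  have hset : spSet K (spAv K T) x = spSet K (spAv K (insert P T)) x ∪
      (fun I => P * I) '' (spSet K (spAv K T) (x / absNorm P)) := by
    ext I
    constructor
    · rintro ⟨⟨hI0, hIT⟩, hIx⟩
      by_cases hd : P ∣ I
      · right
        obtain ⟨J, rfl⟩ := hd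
        refine ⟨J, ⟨⟨?_, ?_⟩, ?_⟩, rfl⟩
        · rintro rfl
          exact hI0 (mul_zero P)
        · intro Q hQ hQJ
          exact hIT Q hQ (hQJ.mul_left P)
        · rw [le_div_iff₀ hN]
          rw [map_mul, Nat.cast_mul] at hIx
          linarith
      · left
        refine ⟨⟨hI0, ?_⟩, hIx⟩
        intro Q hQ
        rcases Finset.mem_insert.1 hQ with rfl | hQ
        · exact hd
        · exact hIT Q hQ
    · rintro (⟨⟨hI0, hIT⟩, hIx⟩ | ⟨J, ⟨⟨hJ0, hJT⟩, hJx⟩, rfl⟩)
      · exact ⟨⟨hI0, fun Q hQ => hIT Q (Finset.mem_insert_of_mem hQ)⟩, hIx⟩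
      · refine ⟨⟨mul_ne_zero hP.ne_zero hJ0, ?_⟩, ?_⟩
        · intro Q hQ hQd
          rcases (hT Q hQ).dvd_or_dvd hQd with h | h
          · have h1 : Q = P := by
              have h3 : Associated Q P := (hT Q hQ).associated_of_dvd hP h
              exact associated_iff_eq.1 h3
            exact hPT (h1 ▸ hQ)
          · exact hJT Q hQ h
        · show (absNorm (P * J) : ℝ) ≤ x
          rw [le_div_iff₀ hN] at hJx
          rw [map_mul, Nat.cast_mul]
          linarith
  rw [hset, Set.ncard_union_eq ?_ (spSet_finite K _ _) ((spSet_finite K _ _).image _),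
    Set.ncard_image_of_injective _ (mul_right_injective₀ hP.ne_zero)]
  rw [Set.disjoint_left]
  rintro I ⟨⟨hI0, hIT⟩, hIx⟩ ⟨J, hJ, rfl⟩
  exact hIT P (Finset.mem_insert_self P T) (dvd_mul_right P J)

lemma sp_lim (T : Finset (Ideal (𝓞 K))) (hT : ∀ P ∈ T, Prime P) : ∃ c : ℝ, 0 < c ∧
    Tendsto (fun x : ℝ => ((spSet K (spAv K T) x).ncard : ℝ) / x) atTop (𝓝 c) := by
  classical
  induction T using Finset.induction_on with
  | empty => exact sp_lim_empty K
  | insert P T hPT ih =>
    obtain ⟨c, hc, hlim⟩ := ih fun Q hQ => hT Q (Finset.mem_insert_of_mem hQ)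
    have hP := hT P (Finset.mem_insert_self P T)
    have hN0 : absNorm P ≠ 0 := mt Ideal.absNorm_eq_zero_iff.1 hP.ne_zero
    have hN1' : absNorm P ≠ 1 := fun h1 => hP.not_isUnit (by
      rw [Ideal.isUnit_iff]; exact Ideal.absNorm_eq_one_iff.1 h1)
    have hN : (1 : ℝ) < absNorm P := by
      have : 1 < absNorm P := by omega
      exact_mod_cast this
    have hNpos : (0 : ℝ) < absNorm P := by linarith
    refine ⟨c - c * (1 / absNorm P), ?_, ?_⟩
    · have h1 : 1 / (absNorm P : ℝ) < 1 := by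
        rw [div_lt_one hNpos]; exact hN
      nlinarith
    · have h2 : Tendsto (fun x : ℝ => x / (absNorm P : ℝ)) atTop atTop :=
        tendsto_id.atTop_div_const hNpos
      have h3 := (hlim.comp h2).mul_const (1 / (absNorm P : ℝ))
      refine (hlim.sub h3).congr ?_
      intro x
      have h4 := sp_rec K hP hPT (fun Q hQ => hT Q (Finset.mem_insert_of_mem hQ)) x
      have h5 : ((spSet K (spAv K T) x).ncard : ℝ) =
          (spSet K (spAv K (insert P T)) x).ncard +
            (spSet K (spAv K T) (x / absNorm P)).ncard := by exact_mod_cast h4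
      simp only [Function.comp_apply]
      rw [h5]
      rw [div_mul_div_comm, mul_one, div_mul_cancel₀ _ hNpos.ne']
      ring

end

section

variable {K L : Type} [Field K] [NumberField K] [Field L] [NumberField L] [Algebra K L]

theorem no_two_primes (S : Finset ℕ) (hS : ∀ p ∈ S, p ≠ 0)
    (h : ∀ P : Ideal (𝓞 K), P.IsPrime → P ≠ ⊥ → (∀ p ∈ S, (p : 𝓞 K) ∉ P) →
      ∃ Q Q' : Ideal (𝓞 L), Q.IsPrime ∧ Q'.IsPrime ∧ Q ≠ Q' ∧
        Q.comap (algebraMap (𝓞 K) (𝓞 L)) = P ∧ Q'.comap (algebraMap (𝓞 K) (𝓞 L)) = P ∧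
        Ideal.absNorm Q = Ideal.absNorm P ∧ Ideal.absNorm Q' = Ideal.absNorm P) : False := by
  classical
  set Gd : Ideal (𝓞 K) → Prop := fun P => P.IsPrime ∧ P ≠ ⊥ ∧ ∀ p ∈ S, (p : 𝓞 K) ∉ P with hGd
  have h' : ∀ P : Ideal (𝓞 K), Gd P → ∃ Q Q' : Ideal (𝓞 L), Q.IsPrime ∧ Q'.IsPrime ∧ Q ≠ Q' ∧
        Q.comap (algebraMap (𝓞 K) (𝓞 L)) = P ∧ Q'.comap (algebraMap (𝓞 K) (𝓞 L)) = P ∧
        Ideal.absNorm Q = Ideal.absNorm P ∧ Ideal.absNorm Q' = Ideal.absNorm P :=
    fun P hP => h P hP.1 hP.2.1 hP.2.2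
  choose! q q' hqp hqp' hne hc hc' hn hn' using h'
  -- the finite set of bad primes
  set m : ℕ := ∏ p ∈ S, p with hm
  have hm0 : m ≠ 0 := Finset.prod_ne_zero_iff.2 hS
  set T : Finset (Ideal (𝓞 K)) := (normalizedFactors (Ideal.span {(m : 𝓞 K)})).toFinset with hTdef
  have hmK : (m : 𝓞 K) ≠ 0 := by exact_mod_cast hm0
  have hspan : Ideal.span {(m : 𝓞 K)} ≠ ⊥ := by
    rw [Ne, Ideal.span_singleton_eq_bot]; exact hmK
  have hT : ∀ P ∈ T, Prime P := by
    intro P hP
    exact prime_of_normalized_factor P (Multiset.mem_toFinset.1 hP)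
  set A : Set (Ideal (𝓞 K)) := spAv K T with hA
  have hgood : ∀ I ∈ A, ∀ P ∈ normalizedFactors I, Gd P := by
    rintro I ⟨hI0, hIT⟩ P hP
    have hPp := prime_of_normalized_factor P hP
    refine ⟨Ideal.isPrime_of_prime hPp, hPp.ne_zero, ?_⟩
    intro p hp hpP
    have h1 : (m : 𝓞 K) ∈ P := by
      rw [hm, ← Finset.mul_prod_erase S _ hp, Nat.cast_mul]
      exact Ideal.mul_mem_right _ _ hpP
    have h2 : P ∣ Ideal.span {(m : 𝓞 K)} := by
      rw [Ideal.dvd_span_singleton]; exact h1
    have h3 : P ∈ T := by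
      rw [hTdef, Multiset.mem_toFinset, Ideal.mem_normalizedFactors_iff hspan]
      refine ⟨Ideal.isPrime_of_prime hPp, Ideal.le_of_dvd h2⟩
    exact hIT P h3 (dvd_of_mem_normalizedFactors hP)
  -- the comparison map
  set th : Ideal (𝓞 K) → Ideal (𝓞 K) → Ideal (𝓞 L) := fun I J =>
    ((normalizedFactors I).map q + (normalizedFactors J).map q').prod with hth
  have hnotbot : ∀ P, Gd P → q P ≠ ⊥ ∧ q' P ≠ ⊥ := by
    intro P hP
    have h0 : absNorm P ≠ 0 := mt Ideal.absNorm_eq_zero_iff.1 hP.2.1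
    constructor
    · intro hb
      apply h0
      rw [← hn P hP, hb, Ideal.absNorm_bot]
    · intro hb
      apply h0
      rw [← hn' P hP, hb, Ideal.absNorm_bot]
  have hprime : ∀ I ∈ A, ∀ J ∈ A, ∀ Q ∈ (normalizedFactors I).map q + (normalizedFactors J).map q',
      Prime Q := by
    intro I hI J hJ Q hQ
    rcases Multiset.mem_add.1 hQ with hQ | hQ
    · obtain ⟨P, hP, rfl⟩ := Multiset.mem_map.1 hQ
      have hg := hgood I hI P hP
      exact Ideal.prime_of_isPrime (hnotbot P hg).1 (hqp P hg)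
    · obtain ⟨P, hP, rfl⟩ := Multiset.mem_map.1 hQ
      have hg := hgood J hJ P hP
      exact Ideal.prime_of_isPrime (hnotbot P hg).2 (hqp' P hg)
  have hfac : ∀ I ∈ A, ∀ J ∈ A, normalizedFactors (th I J) =
      (normalizedFactors I).map q + (normalizedFactors J).map q' := by
    intro I hI J hJ
    exact normalizedFactors_prod_of_prime (hprime I hI J hJ)
  have hrecI : ∀ I ∈ A, ∀ J ∈ A, ((normalizedFactors (th I J)).filter
      (fun Q => Q = q (Q.comap (algebraMap (𝓞 K) (𝓞 L))))).map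
        (fun Q => Q.comap (algebraMap (𝓞 K) (𝓞 L))) = normalizedFactors I := by
    intro I hI J hJ
    rw [hfac I hI J hJ, Multiset.filter_add]
    have h1 : ((normalizedFactors I).map q).filter
        (fun Q => Q = q (Q.comap (algebraMap (𝓞 K) (𝓞 L)))) = (normalizedFactors I).map q := by
      rw [Multiset.filter_eq_self]
      intro Q hQ
      obtain ⟨P, hP, rfl⟩ := Multiset.mem_map.1 hQ
      rw [hc P (hgood I hI P hP)]
    have h2 : ((normalizedFactors J).map q').filter
        (fun Q => Q = q (Q.comap (algebraMap (𝓞 K) (𝓞 L)))) = 0 := by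
      rw [Multiset.filter_eq_nil]
      intro Q hQ
      obtain ⟨P, hP, rfl⟩ := Multiset.mem_map.1 hQ
      rw [hc' P (hgood J hJ P hP)]
      exact (hne P (hgood J hJ P hP)).symm
    rw [h1, h2, add_zero, Multiset.map_map]
    conv_rhs => rw [← Multiset.map_id (normalizedFactors I)]
    refine Multiset.map_congr rfl ?_
    intro P hP
    exact hc P (hgood I hI P hP)
  have hrecJ : ∀ I ∈ A, ∀ J ∈ A, ((normalizedFactors (th I J)).filter
      (fun Q => ¬ Q = q (Q.comap (algebraMap (𝓞 K) (𝓞 L))))).map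
        (fun Q => Q.comap (algebraMap (𝓞 K) (𝓞 L))) = normalizedFactors J := by
    intro I hI J hJ
    rw [hfac I hI J hJ, Multiset.filter_add]
    have h1 : ((normalizedFactors I).map q).filter
        (fun Q => ¬ Q = q (Q.comap (algebraMap (𝓞 K) (𝓞 L)))) = 0 := by
      rw [Multiset.filter_eq_nil]
      intro Q hQ
      obtain ⟨P, hP, rfl⟩ := Multiset.mem_map.1 hQ
      rw [hc P (hgood I hI P hP)]
      exact fun hh => hh rfl
    have h2 : ((normalizedFactors J).map q').filter
        (fun Q => ¬ Q = q (Q.comap (algebraMap (𝓞 K) (𝓞 L)))) = (normalizedFactors J).map q' := by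
      rw [Multiset.filter_eq_self]
      intro Q hQ
      obtain ⟨P, hP, rfl⟩ := Multiset.mem_map.1 hQ
      rw [hc' P (hgood J hJ P hP)]
      exact (hne P (hgood J hJ P hP)).symm
    rw [h1, h2, zero_add, Multiset.map_map]
    conv_rhs => rw [← Multiset.map_id (normalizedFactors J)]
    refine Multiset.map_congr rfl ?_
    intro P hP
    exact hc' P (hgood J hJ P hP)
  have hinj : ∀ I ∈ A, ∀ J ∈ A, ∀ I' ∈ A, ∀ J' ∈ A, th I J = th I' J' → I = I' ∧ J = J' := by
    intro I hI J hJ I' hI' J' hJ' he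
    constructor
    · rw [← Ideal.prod_normalizedFactors_eq_self hI.1, ← Ideal.prod_normalizedFactors_eq_self hI'.1,
        ← hrecI I hI J hJ, ← hrecI I' hI' J' hJ', he]
    · rw [← Ideal.prod_normalizedFactors_eq_self hJ.1, ← Ideal.prod_normalizedFactors_eq_self hJ'.1,
        ← hrecJ I hI J hJ, ← hrecJ I' hI' J' hJ', he]
  have hnorm : ∀ I ∈ A, ∀ J ∈ A, absNorm (th I J) = absNorm I * absNorm J := by
    intro I hI J hJ
    have h1 : ((normalizedFactors I).map q).map absNorm = (normalizedFactors I).map absNorm := by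
      rw [Multiset.map_map]
      exact Multiset.map_congr rfl fun P hP => hn P (hgood I hI P hP)
    have h2 : ((normalizedFactors J).map q').map absNorm = (normalizedFactors J).map absNorm := by
      rw [Multiset.map_map]
      exact Multiset.map_congr rfl fun P hP => hn' P (hgood J hJ P hP)
    simp only [hth]
    rw [Multiset.prod_add, map_mul, map_multiset_prod, map_multiset_prod, h1, h2,
      ← map_multiset_prod, ← map_multiset_prod, Ideal.prod_normalizedFactors_eq_self hI.1,
      Ideal.prod_normalizedFactors_eq_self hJ.1]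
  have hth0 : ∀ I ∈ A, ∀ J ∈ A, th I J ≠ ⊥ := by
    intro I hI J hJ hb
    have h1 := hnorm I hI J hJ
    rw [hb, Ideal.absNorm_bot] at h1
    rcases mul_eq_zero.1 h1.symm with h2 | h2
    · exact hI.1 (Ideal.absNorm_eq_zero_iff.1 h2)
    · exact hJ.1 (Ideal.absNorm_eq_zero_iff.1 h2)
  have hpos : ∀ J ∈ A, (0 : ℝ) < absNorm J := by
    intro J hJ
    exact_mod_cast Nat.pos_of_ne_zero (mt Ideal.absNorm_eq_zero_iff.1 hJ.1)
  -- counting
  have hcount : ∀ (F : Finset (Ideal (𝓞 K))), (∀ J ∈ F, J ∈ A) → ∀ x : ℝ,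
      ∑ J ∈ F, (spSet K A (x / absNorm J)).ncard ≤ (spSet L (spAv L ∅) x).ncard := by
    intro F hF x
    have e1 : ∀ y : ℝ, (spSet K A y).ncard = (spSet_finite K A y).toFinset.card := fun y =>
      Set.ncard_eq_toFinset_card _ _
    have e2 : (spSet L (spAv L ∅) x).ncard = (spSet_finite L (spAv L ∅) x).toFinset.card :=
      Set.ncard_eq_toFinset_card _ _
    simp only [e1]
    rw [e2, ← Finset.card_sigma]
    refine Finset.card_le_card_of_injOn (fun p => th p.2 p.1) ?_ ?_
    · rintro ⟨J, I⟩ hp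
      simp only [Finset.coe_sigma, Set.mem_sigma_iff, Finset.mem_coe, Set.Finite.mem_toFinset] at hp
      obtain ⟨hJ, hIA, hIx⟩ := hp
      simp only [Finset.mem_coe, Set.Finite.mem_toFinset]
      refine ⟨⟨hth0 I hIA J (hF J hJ), fun P hP => absurd hP (Finset.notMem_empty _)⟩, ?_⟩
      rw [hnorm I hIA J (hF J hJ), Nat.cast_mul]
      rw [le_div_iff₀ (hpos J (hF J hJ))] at hIx
      exact hIx
    · rintro ⟨J, I⟩ hp ⟨J', I'⟩ hp' he
      simp only [Finset.coe_sigma, Set.mem_sigma_iff, Finset.mem_coe, Set.Finite.mem_toFinset]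
        at hp hp'
      obtain ⟨hJ, hIA, hIx⟩ := hp
      obtain ⟨hJ', hIA', hIx'⟩ := hp'
      obtain ⟨h1, h2⟩ := hinj I hIA J (hF J hJ) I' hIA' J' (hF J' hJ') he
      subst h1
      subst h2
      rfl
  obtain ⟨c, hc0, hclim⟩ := sp_lim K T hT
  obtain ⟨d, hd0, hdlim⟩ := sp_lim_empty L
  -- boundedness of the sum of inverses of norms
  have hbdd : ∀ (F : Finset (Ideal (𝓞 K))), (∀ J ∈ F, J ∈ A) →
      ∑ J ∈ F, 1 / (absNorm J : ℝ) ≤ d / c := by
    intro F hF
    have hl : Tendsto (fun x : ℝ => ∑ J ∈ F, ((spSet K A (x / absNorm J)).ncard : ℝ) / x) atTop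
        (𝓝 (∑ J ∈ F, c * (1 / (absNorm J : ℝ)))) := by
      refine tendsto_finsetSum F fun J hJ => ?_
      have hN := hpos J (hF J hJ)
      have h2 : Tendsto (fun x : ℝ => x / (absNorm J : ℝ)) atTop atTop :=
        tendsto_id.atTop_div_const hN
      refine ((hclim.comp h2).mul_const (1 / (absNorm J : ℝ))).congr ?_
      intro x
      simp only [Function.comp_apply]
      rw [div_mul_div_comm, mul_one, div_mul_cancel₀ _ hN.ne']
    have hle : ∑ J ∈ F, c * (1 / (absNorm J : ℝ)) ≤ d := by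
      refine le_of_tendsto_of_tendsto hl hdlim ?_
      filter_upwards [eventually_gt_atTop 0] with x hx
      rw [← Finset.sum_div]
      have h1 := hcount F hF x
      have h2 : (∑ J ∈ F, ((spSet K A (x / absNorm J)).ncard : ℝ)) ≤
          (spSet L (spAv L ∅) x).ncard := by exact_mod_cast h1
      exact div_le_div_of_nonneg_right h2 hx.le
    rw [← Finset.mul_sum] at hle
    rw [le_div_iff₀ hc0]
    linarith
  -- summability
  let f : Ideal (𝓞 K) → ℝ := fun J => if J ∈ A then 1 / (absNorm J : ℝ) else 0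
  have hf0 : 0 ≤ f := by
    intro J
    simp only [f, Pi.zero_apply]
    split_ifs
    · positivity
    · exact le_rfl
  have hsum : Summable f := by
    refine summable_of_sum_le hf0 (c := d / c) ?_
    intro u
    have h1 : ∑ J ∈ u, f J = ∑ J ∈ u.filter (fun J => J ∈ A), 1 / (absNorm J : ℝ) := by
      rw [Finset.sum_filter]
    rw [h1]
    exact hbdd _ fun J hJ => (Finset.mem_filter.1 hJ).2
  obtain ⟨s, hs⟩ := summable_iff_vanishing_norm.1 hsum (c / 4) (by positivity)
  have hev : ∀ᶠ x : ℝ in atTop, c / 2 < ((spSet K A x).ncard : ℝ) / x :=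
    hclim.eventually (lt_mem_nhds (by linarith))
  obtain ⟨x, hx1, hx2⟩ := (hev.and (eventually_gt_atTop (max 1 (4 * s.card / c)))).exists
  have hx0 : 0 < x := lt_of_lt_of_le one_pos (le_trans (le_max_left _ _) hx2.le)
  have hx3 : (s.card : ℝ) < c / 4 * x := by
    have := lt_of_le_of_lt (le_max_right _ _) hx2
    rw [div_lt_iff₀ hc0] at this
    linarith
  set t : Finset (Ideal (𝓞 K)) := (spSet_finite K A x).toFinset \ s with ht
  have hts : Disjoint t s := Finset.sdiff_disjoint
  have h1 := hs t hts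
  have h2 : (t.card : ℝ) / x ≤ ∑ J ∈ t, f J := by
    have : ∑ J ∈ t, 1 / x ≤ ∑ J ∈ t, f J := by
      refine Finset.sum_le_sum fun J hJ => ?_
      have hJ' : J ∈ spSet K A x := by
        have := (Finset.mem_sdiff.1 hJ).1
        exact (Set.Finite.mem_toFinset _).1 this
      simp only [f, if_pos hJ'.1]
      exact one_div_le_one_div_of_le (hpos J hJ'.1) hJ'.2
    rw [Finset.sum_const, nsmul_eq_mul, mul_one_div] at this
    exact this
  have h3 : ((spSet K A x).ncard : ℝ) ≤ t.card + s.card := by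
    have h4 : (spSet_finite K A x).toFinset.card ≤ t.card + s.card := by
      rw [ht]
      exact Finset.card_le_card_sdiff_add_card
    rw [Set.ncard_eq_toFinset_card _ (spSet_finite K A x)]
    exact_mod_cast h4
  have h5 : ‖∑ J ∈ t, f J‖ = ∑ J ∈ t, f J := by
    rw [Real.norm_eq_abs, abs_of_nonneg (Finset.sum_nonneg fun J _ => hf0 J)]
  rw [h5] at h1
  rw [lt_div_iff₀ hx0] at hx1
  have h6 : (t.card : ℝ) / x < c / 4 := lt_of_le_of_lt h2 h1
  rw [div_lt_iff₀ hx0] at h6
  linarith

end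

end AbMot
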