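import Mathlib
import Pool.Agent.Helper40.AbMot.JZ

/-!
# The simple case of the theorem of Jordan and Zassenhaus over a non commutative algebra
-/
open Module

namespace AbMot

/-- simultaneous Dirichlet approximation -/
lemma dirichlet_simul {ι : Type} [Fintype ι] (Q : ℕ) (hQ : 0 < Q) (q : ι → ℚ) :
    ∃ t : ℕ, 1 ≤ t ∧ t ≤ Q ^ Fintype.card ι ∧ ∃ z : ι → ℤ, ∀ i,
      |(t : ℚ) * q i - z i| ≤ 1 / Q := by
  classical
  have hQ' : (0 : ℚ) < Q := by exact_mod_cast hQ
  have hbd : ∀ x : ℚ, (⌊(Q : ℚ) * Int.fract x⌋).toNat < Q := by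
    intro x
    have h1 : (Q : ℚ) * Int.fract x < Q := by
      nlinarith [Int.fract_lt_one x]
    have h2 : ⌊(Q : ℚ) * Int.fract x⌋ < (Q : ℤ) := by
      rw [Int.floor_lt]; exact_mod_cast h1
    omega
  let f : Fin (Q ^ Fintype.card ι + 1) → (ι → Fin Q) := fun j i =>
    ⟨(⌊(Q : ℚ) * Int.fract (((j : ℕ) : ℚ) * q i)⌋).toNat, hbd _⟩
  obtain ⟨a, b, hab, hf⟩ := Fintype.exists_ne_map_eq_of_card_lt f (by simp)
  have key : ∀ a b : Fin (Q ^ Fintype.card ι + 1), (a : ℕ) < b → f a = f b →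
      ∃ t : ℕ, 1 ≤ t ∧ t ≤ Q ^ Fintype.card ι ∧ ∃ z : ι → ℤ, ∀ i,
      |(t : ℚ) * q i - z i| ≤ 1 / Q := by
    intro a b hab hf
    refine ⟨(b : ℕ) - a, by omega, by omega, fun i => ⌊((b : ℕ) : ℚ) * q i⌋ -
      ⌊((a : ℕ) : ℚ) * q i⌋, fun i => ?_⟩
    have h1 := congrArg Fin.val (congrFun hf i)
    simp only [f] at h1
    have hfa := Int.fract_nonneg (((a : ℕ) : ℚ) * q i)
    have hfb := Int.fract_nonneg (((b : ℕ) : ℚ) * q i)
    have ha0 : 0 ≤ ⌊(Q : ℚ) * Int.fract (((a : ℕ) : ℚ) * q i)⌋ :=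
      Int.floor_nonneg.2 (mul_nonneg hQ'.le hfa)
    have hb0 : 0 ≤ ⌊(Q : ℚ) * Int.fract (((b : ℕ) : ℚ) * q i)⌋ :=
      Int.floor_nonneg.2 (mul_nonneg hQ'.le hfb)
    have h2 : ⌊(Q : ℚ) * Int.fract (((a : ℕ) : ℚ) * q i)⌋ =
        ⌊(Q : ℚ) * Int.fract (((b : ℕ) : ℚ) * q i)⌋ := by omega
    have h3 : |(Q : ℚ) * Int.fract (((a : ℕ) : ℚ) * q i) -
        (Q : ℚ) * Int.fract (((b : ℕ) : ℚ) * q i)| < 1 :=
      Int.abs_sub_lt_one_of_floor_eq_floor h2
    have h4 : (((b : ℕ) - a : ℕ) : ℚ) * q i - ((⌊((b : ℕ) : ℚ) * q i⌋ -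
      ⌊((a : ℕ) : ℚ) * q i⌋ : ℤ) : ℚ) = Int.fract (((b : ℕ) : ℚ) * q i) -
      Int.fract (((a : ℕ) : ℚ) * q i) := by
      rw [Nat.cast_sub hab.le]
      simp only [Int.fract]
      push_cast
      ring
    rw [h4, abs_sub_comm]
    rw [← mul_sub, abs_mul, abs_of_pos hQ'] at h3
    rw [le_div_iff₀ hQ']
    linarith
  rcases Nat.lt_or_gt_of_ne (fun h => hab (Fin.ext h)) with h | h
  · exact key a b h hf
  · exact key b a h hf.symm

/-- a combination with small coefficients has a small determinant -/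
lemma det_small {n : ℕ} (hn : 0 < n) {ι : Type} [Fintype ι] (M : ι → Matrix (Fin n) (Fin n) ℚ) :
    ∃ Q : ℕ, 0 < Q ∧ ∀ r : ι → ℚ, (∀ i, |r i| ≤ 1 / Q) → |(∑ i, r i • M i).det| < 1 := by
  classical
  obtain ⟨x, hx⟩ : ∃ x : ℕ, ∀ k i j, |M k i j| ≤ x := by
    obtain ⟨x, hx⟩ : ∃ x : ℕ, ∑ k, ∑ i, ∑ j, |M k i j| ≤ x := exists_nat_ge _
    refine ⟨x, fun k i j => le_trans ?_ hx⟩
    calc |M k i j| ≤ ∑ j, |M k i j| :=
          Finset.single_le_sum (f := fun j => |M k i j|) (fun _ _ => abs_nonneg _)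
            (Finset.mem_univ j)
      _ ≤ ∑ i, ∑ j, |M k i j| :=
          Finset.single_le_sum (f := fun i => ∑ j, |M k i j|)
            (fun _ _ => Finset.sum_nonneg fun _ _ => abs_nonneg _) (Finset.mem_univ i)
      _ ≤ ∑ k, ∑ i, ∑ j, |M k i j| :=
          Finset.single_le_sum (f := fun k => ∑ i, ∑ j, |M k i j|)
            (fun _ _ => Finset.sum_nonneg fun _ _ => Finset.sum_nonneg fun _ _ => abs_nonneg _)
            (Finset.mem_univ k)
  let A : ℕ := Nat.factorial n * (Fintype.card ι * x) + 1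
  refine ⟨A, by positivity, fun r hr => ?_⟩
  have hA : (0 : ℚ) < A := by positivity
  have h1 := Matrix.det_sum_smul_le (abv := AbsoluteValue.abs) (Finset.univ : Finset ι)
    (c := r) (A := M) (x := (x : ℚ)) hx (y := 1 / (A : ℚ)) hr
  simp only [AbsoluteValue.abs_apply, Fintype.card_fin, Finset.card_univ, nsmul_eq_mul] at h1
  refine lt_of_le_of_lt h1 ?_
  set w : ℚ := (Fintype.card ι : ℚ) * (1 / A) * x with hw
  have hw0 : 0 ≤ w := by positivity
  have hfac : (1 : ℚ) ≤ (Nat.factorial n : ℚ) := by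
    exact_mod_cast Nat.succ_le_of_lt (Nat.factorial_pos n)
  have h2 : (Nat.factorial n : ℚ) * w < 1 := by
    have h3 : (Nat.factorial n : ℚ) * w = (Nat.factorial n * (Fintype.card ι * x)) / A := by
      rw [hw]; ring
    rw [h3, div_lt_one hA]
    simp only [A]
    push_cast
    linarith
  have h4 : w ≤ 1 := by nlinarith
  have h5 : w ^ n ≤ w := by
    calc w ^ n ≤ w ^ 1 := pow_le_pow_of_le_one hw0 h4 hn
      _ = w := pow_one w
  calc (Nat.factorial n : ℚ) * w ^ n ≤ (Nat.factorial n : ℚ) * w := by gcongr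
    _ < 1 := h2

/-- clearing denominators -/
lemma clear_denoms {V : Type} [AddCommGroup V] (L L' : Submodule ℤ V) (hL : L.FG)
    (hL' : ∀ v : V, ∃ k : ℤ, k ≠ 0 ∧ k • v ∈ L') (f : V → V)
    (hadd : ∀ x y, f (x + y) = f x + f y) (hsmul : ∀ (k : ℤ) x, f (k • x) = k • f x) :
    ∃ k : ℤ, k ≠ 0 ∧ ∀ x ∈ L, k • f x ∈ L' := by
  classical
  obtain ⟨S, rfl⟩ := hL
  choose k hk hkL using fun v => hL' (f v)
  refine ⟨∏ y ∈ S, k y, Finset.prod_ne_zero_iff.2 fun y _ => hk y, fun x hx => ?_⟩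
  induction hx using Submodule.span_induction with
  | mem x hx =>
    obtain ⟨c, hc⟩ := Finset.dvd_prod_of_mem k (Finset.mem_coe.1 hx)
    rw [hc, mul_comm, mul_smul]
    exact L'.smul_mem c (hkL x)
  | zero =>
    have : f 0 = 0 := by
      have := hsmul 0 0
      simpa using this
    rw [this, smul_zero]; exact L'.zero_mem
  | add x y _ _ hx hy => rw [hadd, smul_add]; exact L'.add_mem hx hy
  | smul a x _ hx => rw [hsmul, smul_comm]; exact L'.smul_mem a hx

/-- the determinant of an endomorphism which preserves a lattice is an integer -/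
lemma det_int {V : Type} [AddCommGroup V] [Module ℚ V] [FiniteDimensional ℚ V]
    (L0 : Submodule ℤ V) (hfg : L0.FG) (hfull : ∀ v : V, ∃ k : ℤ, k ≠ 0 ∧ k • v ∈ L0)
    (δ : V →ₗ[ℚ] V) (hδ : ∀ x ∈ L0, δ x ∈ L0) : ∃ z : ℤ, LinearMap.det δ = z := by
  classical
  have hlat : Submodule.IsLattice ℚ L0 := by
    refine ⟨hfg, ?_⟩
    rw [eq_top_iff]
    intro v _
    obtain ⟨k, hk, hkv⟩ := hfull v
    have hk' : (k : ℚ) ≠ 0 := by exact_mod_cast hk
    have h1 : v = (k : ℚ)⁻¹ • (k • v) := by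
      rw [← Int.cast_smul_eq_zsmul ℚ k v, smul_smul, inv_mul_cancel₀ hk', one_smul]
    rw [h1]
    exact Submodule.smul_mem _ _ (Submodule.subset_span hkv)
  let b := Module.Free.chooseBasis ℤ L0
  let c := b.extendOfIsLattice ℚ
  have hrepr : ∀ x : L0, ∀ i, c.repr (x : V) i = ((b.repr x i : ℤ) : ℚ) := by
    intro x i
    have h1 : (x : V) = ∑ j, ((b.repr x j : ℤ) : ℚ) • c j := by
      conv_lhs => rw [← b.sum_repr x]
      rw [Submodule.coe_sum]
      refine Finset.sum_congr rfl fun j _ => ?_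
      rw [Submodule.coe_smul, Int.cast_smul_eq_zsmul, Basis.extendOfIsLattice_apply]
    rw [h1, Basis.repr_sum_self]
  let D : Matrix (Module.Free.ChooseBasisIndex ℤ L0) (Module.Free.ChooseBasisIndex ℤ L0) ℤ :=
    fun i j => b.repr ⟨δ (b j), hδ _ (b j).2⟩ i
  refine ⟨D.det, ?_⟩
  rw [← LinearMap.det_toMatrix c]
  have h2 : LinearMap.toMatrix c c δ = (Int.castRingHom ℚ).mapMatrix D := by
    ext i j
    rw [LinearMap.toMatrix_apply, RingHom.mapMatrix_apply, Matrix.map_apply,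
      Basis.extendOfIsLattice_apply]
    exact hrepr ⟨δ (b j), hδ _ (b j).2⟩ i
  rw [h2, ← RingHom.map_det]
  rfl


section main

variable {U V : Type} [Ring U] [Algebra ℚ U] [AddCommGroup V] [Module ℚ V] [Module U V]
  [IsScalarTower ℚ U V]

/-- uniform common multiples -/
lemma common_multiple (s : Set U) (hs : Algebra.adjoin ℚ s = ⊤) (u : U) :
    ∃ N : ℤ, N ≠ 0 ∧ ∀ L : Submodule ℤ V, (∀ u ∈ s, ∀ x ∈ L, u • x ∈ L) →
      ∀ x ∈ L, N • (u • x) ∈ L := by
  have hu : u ∈ Algebra.adjoin ℚ s := by rw [hs]; trivial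
  induction hu using Algebra.adjoin_induction with
  | mem u hu => exact ⟨1, one_ne_zero, fun L hL x hx => by rw [one_smul]; exact hL u hu x hx⟩
  | algebraMap r =>
    refine ⟨r.den, by exact_mod_cast r.den_nz, fun L _ x hx => ?_⟩
    have h1 : (r.den : ℤ) • ((algebraMap ℚ U r) • x) = r.num • x := by
      rw [algebraMap_smul, ← Int.cast_smul_eq_zsmul ℚ, ← Int.cast_smul_eq_zsmul ℚ, smul_smul]
      congr 1
      have := Rat.den_mul_eq_num r
      exact_mod_cast this
    rw [h1]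
    exact L.smul_mem _ hx
  | add u v _ _ hu hv =>
    obtain ⟨N, hN, h⟩ := hu
    obtain ⟨N', hN', h'⟩ := hv
    refine ⟨N * N', mul_ne_zero hN hN', fun L hL x hx => ?_⟩
    rw [add_smul, smul_add]
    refine L.add_mem ?_ ?_
    · rw [mul_comm, mul_smul]; exact L.smul_mem _ (h L hL x hx)
    · rw [mul_smul]; exact L.smul_mem _ (h' L hL x hx)
  | mul u v _ _ hu hv =>
    obtain ⟨N, hN, h⟩ := hu
    obtain ⟨N', hN', h'⟩ := hv
    refine ⟨N * N', mul_ne_zero hN hN', fun L hL x hx => ?_⟩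
    have h1 : (N * N') • ((u * v) • x) = N • (u • (N' • (v • x))) := by
      rw [mul_smul, mul_smul, smul_comm u N']
    rw [h1]
    exact h L hL _ (h' L hL x hx)

/-- approximation in the endomorphism ring -/
lemma approx_end [FiniteDimensional ℚ V] [Nontrivial V] (L0 : Submodule ℤ V) (hfg : L0.FG)
    (hfull : ∀ v : V, ∃ k : ℤ, k ≠ 0 ∧ k • v ∈ L0) :
    ∃ T0 : ℕ, ∀ d : Module.End U V, ∃ t : ℕ, 1 ≤ t ∧ t ≤ T0 ∧ ∃ δ : Module.End U V,
      (∀ x ∈ L0, δ x ∈ L0) ∧
      |LinearMap.det ((((t : ℤ) • d - δ : Module.End U V) : V →ₗ[U] V).restrictScalars ℚ)| < 1 := by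
  classical
  have hcomm : SMulCommClass U ℚ V := inferInstance
  have : FiniteDimensional ℚ (Module.End U V) := by
    refine Module.Finite.of_injective (LinearMap.restrictScalarsₗ ℚ U V V ℚ) ?_
    exact LinearMap.restrictScalars_injective ℚ
  let b := Module.finBasis ℚ (Module.End U V)
  have hex : ∀ i, ∃ k : ℤ, k ≠ 0 ∧ ∀ x ∈ L0, k • (b i x) ∈ L0 := fun i =>
    clear_denoms L0 L0 hfg hfull (b i) (map_add _) (fun k x => map_zsmul _ k x)
  choose k hk hkL using hex
  let c := Module.finBasis ℚ V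
  obtain ⟨Q, hQ, hsmall⟩ := det_small (n := Module.finrank ℚ V) Module.finrank_pos
    (fun i => LinearMap.toMatrix c c (((k i • b i : Module.End U V) : V →ₗ[U] V).restrictScalars ℚ))
  refine ⟨Q ^ Fintype.card (Fin (finrank ℚ (Module.End U V))), fun d => ?_⟩
  obtain ⟨t, ht1, ht2, z, hz⟩ := dirichlet_simul Q hQ (fun i => b.repr d i / k i)
  refine ⟨t, ht1, ht2, ∑ i, z i • (k i • b i), ?_, ?_⟩
  · intro x hx
    rw [LinearMap.sum_apply]
    refine L0.sum_mem fun i _ => ?_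
    rw [LinearMap.smul_apply, LinearMap.smul_apply]
    exact L0.smul_mem _ (hkL i x hx)
  · have h1 : (((t : ℤ) • d - ∑ i, z i • (k i • b i) : Module.End U V) : V →ₗ[U] V) =
        ∑ i, ((t : ℚ) * (b.repr d i / k i) - z i) • (k i • b i) := by
      conv_lhs => rw [← b.sum_repr d]
      rw [Finset.smul_sum, ← Finset.sum_sub_distrib]
      refine Finset.sum_congr rfl fun i _ => ?_
      have hki : (k i : ℚ) ≠ 0 := by exact_mod_cast hk i
      rw [← Int.cast_smul_eq_zsmul ℚ (t : ℤ), ← Int.cast_smul_eq_zsmul ℚ (z i),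
        ← Int.cast_smul_eq_zsmul ℚ (k i), smul_smul, smul_smul, smul_smul, ← sub_smul]
      congr 1
      push_cast
      field_simp
    rw [h1, ← LinearMap.det_toMatrix c]
    have h2 : LinearMap.toMatrix c c ((∑ i, ((t : ℚ) * (b.repr d i / k i) - z i) • (k i • b i) :
        V →ₗ[U] V).restrictScalars ℚ) = ∑ i, ((t : ℚ) * (b.repr d i / k i) - z i) •
        LinearMap.toMatrix c c (((k i • b i : Module.End U V) : V →ₗ[U] V).restrictScalars ℚ) := by
      rw [← LinearMap.restrictScalarsₗ_apply ℚ U V V ℚ, map_sum, map_sum]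
      refine Finset.sum_congr rfl fun i _ => ?_
      rw [map_smul, map_smul]
      rfl
    rw [h2]
    exact hsmall _ hz

end main


section main

variable {U V : Type} [Ring U] [Algebra ℚ U] [AddCommGroup V] [Module ℚ V] [Module U V]
  [IsScalarTower ℚ U V]

/-- the coordinates of a stable lattice are uniformly bounded -/
lemma coord_bound [FiniteDimensional ℚ V] [IsSimpleModule U V] (s : Set U)
    (hs : Algebra.adjoin ℚ s = ⊤) (L0 : Submodule ℤ V) (hfg : L0.FG)
    (hfull : ∀ v : V, ∃ k : ℤ, k ≠ 0 ∧ k • v ∈ L0) :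
    ∃ (r : ℕ) (b : Fin r → V) (N : ℤ), N ≠ 0 ∧ (∀ i, b i ∈ L0) ∧
      ∀ L : Submodule ℤ V, (∀ u ∈ s, ∀ x ∈ L, u • x ∈ L) → ∀ v ∈ L,
        ∃ h : Fin r → Module.End U V, (∀ i, ∀ x ∈ L0, h i x ∈ L) ∧ N • v = ∑ i, h i (b i) := by
  classical
  have hcomm : SMulCommClass U ℚ V := inferInstance
  have hfin : Module.Finite (Module.End U V) V := by
    obtain ⟨S, hS⟩ := (inferInstance : Module.Finite ℚ V).fg_top
    refine ⟨S, ?_⟩
    rw [eq_top_iff]
    intro v _
    have hv : v ∈ Submodule.span ℚ (S : Set V) := by rw [hS]; trivial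
    induction hv using Submodule.span_induction with
    | mem x hx => exact Submodule.subset_span hx
    | zero => exact Submodule.zero_mem _
    | add x y _ _ hx hy => exact Submodule.add_mem _ (hx trivial) (hy trivial)
    | smul a x _ hx =>
      have h1 : a • x = (a • (1 : Module.End U V)) • x := by
        simp
      rw [h1]
      exact Submodule.smul_mem _ _ (hx trivial)
  have hsurj := Module.Finite.toModuleEnd_moduleEnd_surjective (R := U) (M := V)
  let b := Module.finBasis (Module.End U V) V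
  obtain ⟨S, hS⟩ := hfg
  -- the ring elements
  have hex : ∀ (i : Fin (finrank (Module.End U V) V)) (y : V), ∃ u : U, ∀ v : V,
      u • v = (b.repr v i) y := by
    intro i y
    obtain ⟨u, hu⟩ := hsurj ((LinearMap.toSpanSingleton (Module.End U V) V y) ∘ₗ (b.coord i))
    exact ⟨u, fun v => LinearMap.congr_fun hu v⟩
  choose u hu using hex
  choose N hN hNL using fun i y => common_multiple (V := V) s hs (u i y)
  choose k hk hkL using fun i => hfull (b i)
  let N1 : ℤ := ∏ i, ∏ y ∈ S, N i y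
  have hN1 : N1 ≠ 0 :=
    Finset.prod_ne_zero_iff.2 fun i _ => Finset.prod_ne_zero_iff.2 fun y _ => hN i y
  let k0 : ℤ := ∏ i, k i
  have hk0 : k0 ≠ 0 := Finset.prod_ne_zero_iff.2 fun i _ => hk i
  have hdvd : ∀ i, ∀ y ∈ S, N i y ∣ N1 := fun i y hy =>
    (Finset.dvd_prod_of_mem (N i) hy).trans
      (Finset.dvd_prod_of_mem (fun i => ∏ y ∈ S, N i y) (Finset.mem_univ i))
  refine ⟨_, fun i => k0 • b i, N1 * k0, mul_ne_zero hN1 hk0, ?_, ?_⟩
  · intro i
    obtain ⟨c, hc⟩ := Finset.dvd_prod_of_mem k (Finset.mem_univ i)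
    simp only [k0, hc]
    rw [mul_comm, mul_smul]
    exact L0.smul_mem c (hkL i)
  · intro L hL v hv
    refine ⟨fun i => N1 • (b.repr v i), ?_, ?_⟩
    · intro i x hx
      rw [← hS] at hx
      rw [LinearMap.smul_apply]
      induction hx using Submodule.span_induction with
      | mem y hy =>
        obtain ⟨c, hc⟩ := hdvd i y hy
        rw [hc, mul_comm, mul_smul, ← hu]
        exact L.smul_mem c (hNL i y L hL v hv)
      | zero => rw [map_zero, smul_zero]; exact L.zero_mem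
      | add x y _ _ hx hy => rw [map_add, smul_add]; exact L.add_mem hx hy
      | smul a x _ hx => rw [map_zsmul, smul_comm]; exact L.smul_mem a hx
    · conv_lhs => rw [← b.sum_repr v]
      rw [Finset.smul_sum]
      refine Finset.sum_congr rfl fun i _ => ?_
      rw [LinearMap.smul_apply, map_zsmul, mul_smul, Module.End.smul_def]

/-- the minimal element of the module of homomorphisms -/
lemma exists_minimal_hom [FiniteDimensional ℚ V] [Nontrivial V] (L0 L : Submodule ℤ V)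
    (hfg : L0.FG) (hfull : ∀ v : V, ∃ k : ℤ, k ≠ 0 ∧ k • v ∈ L0)
    (hLfg : L.FG) (hLfull : ∀ v : V, ∃ k : ℤ, k ≠ 0 ∧ k • v ∈ L) :
    ∃ h : Module.End U V, h ≠ 0 ∧ (∀ x ∈ L0, h x ∈ L) ∧ ∀ h' : Module.End U V, h' ≠ 0 →
      (∀ x ∈ L0, h' x ∈ L) → |LinearMap.det ((h : V →ₗ[U] V).restrictScalars ℚ)| ≤
        |LinearMap.det ((h' : V →ₗ[U] V).restrictScalars ℚ)| := by
  classical
  obtain ⟨m, hm, hmL⟩ := clear_denoms L L0 hLfg hfull id (fun _ _ => rfl) (fun _ _ => rfl)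
  obtain ⟨k, hk, hkL⟩ := clear_denoms L0 L hfg hLfull id (fun _ _ => rfl) (fun _ _ => rfl)
  simp only [id] at hmL hkL
  let n := finrank ℚ V
  have hm' : (m : ℚ) ≠ 0 := by exact_mod_cast hm
  have hint : ∀ h : Module.End U V, (∀ x ∈ L0, h x ∈ L) → ∃ a : ℕ,
      |LinearMap.det ((h : V →ₗ[U] V).restrictScalars ℚ)| = a / |(m : ℚ)| ^ n := by
    intro h hh
    obtain ⟨z, hz⟩ := det_int L0 hfg hfull ((m : ℚ) • ((h : V →ₗ[U] V).restrictScalars ℚ))
      (fun x hx => by
        rw [LinearMap.smul_apply, Int.cast_smul_eq_zsmul]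
        exact hmL _ (hh x hx))
    rw [LinearMap.det_smul] at hz
    refine ⟨z.natAbs, ?_⟩
    have h1 : (0 : ℚ) < |(m : ℚ)| ^ n := pow_pos (abs_pos.2 hm') n
    rw [eq_div_iff h1.ne', Nat.cast_natAbs, Int.cast_abs, ← hz, abs_mul, abs_pow, mul_comm]
  let P : ℕ → Prop := fun a => ∃ h : Module.End U V, h ≠ 0 ∧ (∀ x ∈ L0, h x ∈ L) ∧
    |LinearMap.det ((h : V →ₗ[U] V).restrictScalars ℚ)| = a / |(m : ℚ)| ^ n
  have hP : ∃ a, P a := by
    have h1 : (∀ x ∈ L0, (k • (1 : Module.End U V)) x ∈ L) := by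
      intro x hx
      rw [LinearMap.smul_apply]
      exact hkL x hx
    obtain ⟨a, ha⟩ := hint _ h1
    refine ⟨a, k • 1, ?_, h1, ha⟩
    intro h0
    obtain ⟨v, hv⟩ := exists_ne (0 : V)
    have h2 := LinearMap.congr_fun h0 v
    rw [LinearMap.smul_apply, Module.End.one_apply, LinearMap.zero_apply,
      ← Int.cast_smul_eq_zsmul ℚ, smul_eq_zero] at h2
    rcases h2 with h2 | h2
    · exact hk (by exact_mod_cast h2)
    · exact hv h2
  obtain ⟨h, h0, hL, ha⟩ := Nat.find_spec hP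
  refine ⟨h, h0, hL, fun h' h0' hL' => ?_⟩
  obtain ⟨a', ha'⟩ := hint h' hL'
  have h3 : Nat.find hP ≤ a' := Nat.find_min' hP ⟨h', h0', hL', ha'⟩
  rw [ha, ha']
  have h1 : (0 : ℚ) < |(m : ℚ)| ^ n := pow_pos (abs_pos.2 hm') n
  gcongr

end main


/-- **Jordan-Zassenhaus, simple case**: up to the action of the endomorphism ring there are only
finitely many stable full lattices in a simple module. -/
theorem finite_lattices_simple {U V : Type} [Ring U] [Algebra ℚ U] [AddCommGroup V] [Module ℚ V]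
    [Module U V] [IsScalarTower ℚ U V] [FiniteDimensional ℚ V] [IsSimpleModule U V]
    (s : Set U) (hs : Algebra.adjoin ℚ s = ⊤) :
    ∃ T : Set (Submodule ℤ V), T.Finite ∧ ∀ L : Submodule ℤ V, L.FG →
      (∀ v : V, ∃ k : ℤ, k ≠ 0 ∧ k • v ∈ L) → (∀ u ∈ s, ∀ x ∈ L, u • x ∈ L) →
        ∃ d : V ≃ₗ[U] V, L.map ((d : V →ₗ[U] V).restrictScalars ℤ) ∈ T := by
  classical
  by_cases hex : ∃ L0 : Submodule ℤ V, L0.FG ∧ (∀ v : V, ∃ k : ℤ, k ≠ 0 ∧ k • v ∈ L0) ∧
      (∀ u ∈ s, ∀ x ∈ L0, u • x ∈ L0)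
  swap
  · exact ⟨∅, Set.finite_empty, fun L h1 h2 h3 => absurd ⟨L, h1, h2, h3⟩ hex⟩
  obtain ⟨L0, hfg, hfull, hst⟩ := hex
  have hnt : Nontrivial V := IsSimpleModule.nontrivial U V
  obtain ⟨T0, hT0⟩ := approx_end (U := U) L0 hfg hfull
  obtain ⟨r, b, N, hN, hb, hcoord⟩ := coord_bound (U := U) (V := V) s hs L0 hfg hfull
  let c : ℤ := (T0.factorial : ℤ) * N
  have hc : c ≠ 0 := mul_ne_zero (by exact_mod_cast T0.factorial_ne_zero) hN
  have hc' : (c : ℚ) ≠ 0 := by exact_mod_cast hc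
  let mc : V →ₗ[ℤ] V := c • LinearMap.id
  let I : Submodule ℤ V := L0.comap mc
  have hmemI : ∀ x, x ∈ I ↔ c • x ∈ L0 := fun x => Iff.rfl
  have hmcinj : ∀ x y : V, c • x = c • y → x = y := by
    intro x y h
    rw [← Int.cast_smul_eq_zsmul ℚ, ← Int.cast_smul_eq_zsmul ℚ] at h
    exact smul_right_injective V hc' h
  have hIfg : I.FG := by
    have h1 : Module.Finite ℤ L0 := Module.Finite.iff_fg.2 hfg
    have h2 : Module.Finite ℤ I := by
      refine Module.Finite.of_injective (mc.restrict (p := I) (q := L0) (fun x hx => hx)) ?_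
      intro x y h
      exact Subtype.ext (hmcinj x y (congrArg Subtype.val h))
    exact Module.Finite.iff_fg.1 h2
  refine ⟨_, finite_between I hIfg c hc, fun L hLfg hLfull hLst => ?_⟩
  obtain ⟨h, hh0, hhL, hmin⟩ := exists_minimal_hom (U := U) L0 L hfg hfull hLfg hLfull
  have hbij : Function.Bijective h := LinearMap.bijective_of_ne_zero hh0
  let e : V ≃ₗ[U] V := LinearEquiv.ofBijective h hbij
  have he : ∀ x, e x = h x := fun x => rfl
  have hes : ∀ x, h (e.symm x) = x := fun x => e.apply_symm_apply x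
  have hse : ∀ x, e.symm (h x) = x := fun x => e.symm_apply_apply x
  -- multiples of elements of the module of homomorphisms
  have key : ∀ y : Module.End U V, (∀ x ∈ L0, y x ∈ L) → ∃ δ : Module.End U V,
      (∀ x ∈ L0, δ x ∈ L0) ∧ ∀ v, (T0.factorial : ℤ) • y v = h (δ v) := by
    intro y hy
    let d : Module.End U V := (e.symm : V →ₗ[U] V) ∘ₗ y
    obtain ⟨t, ht1, ht2, δ, hδ, hdet⟩ := hT0 d
    let w : Module.End U V := (t : ℤ) • d - δ
    let h' : Module.End U V := h * w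
    have hh' : ∀ v, h' v = (t : ℤ) • y v - h (δ v) := by
      intro v
      simp only [h', w, d, Module.End.mul_apply, LinearMap.sub_apply, LinearMap.smul_apply,
        LinearMap.comp_apply, map_sub, map_zsmul, LinearEquiv.coe_coe, hes]
    have hh'L : ∀ x ∈ L0, h' x ∈ L := by
      intro x hx
      rw [hh']
      exact L.sub_mem (L.smul_mem _ (hy x hx)) (hhL _ (hδ x hx))
    have hdet' : |LinearMap.det ((h' : V →ₗ[U] V).restrictScalars ℚ)| =
        |LinearMap.det ((h : V →ₗ[U] V).restrictScalars ℚ)| *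
        |LinearMap.det ((w : V →ₗ[U] V).restrictScalars ℚ)| := by
      rw [← abs_mul, ← LinearMap.det_comp]
      rfl
    have hdeth : 0 < |LinearMap.det ((h : V →ₗ[U] V).restrictScalars ℚ)| := by
      rw [abs_pos]
      have h1 := LinearEquiv.isUnit_det' (e.restrictScalars ℚ)
      exact h1.ne_zero
    have h'0 : h' = 0 := by
      by_contra hne
      have h1 := hmin h' hne hh'L
      rw [hdet'] at h1
      have h2 : |LinearMap.det ((w : V →ₗ[U] V).restrictScalars ℚ)| < 1 := hdet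
      nlinarith
    obtain ⟨f, hf⟩ : t ∣ T0.factorial := Nat.dvd_factorial (by omega) ht2
    refine ⟨(f : ℤ) • δ, fun x hx => ?_, fun v => ?_⟩
    · rw [LinearMap.smul_apply]; exact L0.smul_mem _ (hδ x hx)
    · have h1 := hh' v
      rw [h'0, LinearMap.zero_apply] at h1
      have h2 : h (δ v) = (t : ℤ) • y v := (sub_eq_zero.1 h1.symm).symm
      rw [LinearMap.smul_apply, map_zsmul, h2, hf, Nat.cast_mul, mul_comm, mul_smul]
  refine ⟨e.symm, ?_, ?_⟩
  · intro x hx
    rw [hmemI] at hx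
    refine ⟨h (c • x), hhL _ hx, ?_⟩
    exact hse _
  · rintro _ ⟨v, hv, rfl⟩
    rw [hmemI]
    obtain ⟨g, hg, hgv⟩ := hcoord L hLst v hv
    choose δ hδ hgδ using fun i => key (g i) (hg i)
    have h1 : c • v = h (∑ i, δ i (b i)) := by
      simp only [c]
      rw [mul_smul, hgv, Finset.smul_sum, map_sum]
      exact Finset.sum_congr rfl fun i _ => hgδ i (b i)
    have h2 : c • (((e.symm : V →ₗ[U] V).restrictScalars ℤ) v) = ∑ i, δ i (b i) := by
      rw [← map_zsmul, h1]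
      exact hse _
    rw [h2]
    exact L0.sum_mem fun i _ => hδ i _ (hb i)

end AbMot
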